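import Pool.Agent.T2h17.MJ.Cnt
import Pool.Agent.T2h17.MJ.All

/-!
# The modular Schanuel conjecture with derivatives: almost all tuples of points near a point with rational invariant

Let `j` be the modular invariant. Let `z₀` be a point of the upper half-plane with `j(z₀)` rational, not `0` or `1728`,
for example one of the special points with rational invariant, and let `z_1, …, z_k` be points near `z₀` (or equivalent
under `SL_2(ℤ)` to such points) with algebraic invariants. If the `z_i` are not special and pairwise not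
equivalent under `GL_2(ℚ)`, the modular Schanuel conjecture with derivatives and special points predicts that the `3 k`
numbers `z_i`, `j'(z_i)`, `j''(z_i)` are algebraically independent, and that they stay independent if one adds the number
`j'(z₀)`, for special `z₀`, or the numbers `z₀`, `j'(z₀)`, `j''(z₀)` for a point `z₀` which is not special, and the
values `j'(w_l)` at further inequivalent special points.

Let `Z_m(T)` be the set of all algebraic integers of degree at most `m` whose conjugates have absolute value at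
most `T`. For `ξ` in `Z_m(T)` with `|ξ| > B` there is a point `v` near `z₀` with `1 / j(v) = 1 / j(z₀) + 1 / ξ`: its
invariant is an algebraic number of degree at most `m`. We prove that for all `q`, `k`, `m`, `d`, `δ` there are `c > 0` and
`C` such that for all complex numbers `w_1, …, w_q` and all `T ≥ 1`, outside at most `C T^(-c) |Z_m(T)|^k` of the `k`-tuples
`(ξ_1, …, ξ_k)` of elements of `Z_m(T)`, for all points `v_i` near `z₀` with `1 / j(v_i) = 1 / j(z₀) + 1 / ξ_i` and all
`γ_i` in `SL_2(ℤ)` every relation of degree at most `δ` between the numbers `z_i`, `j'(z_i)`, `j''(z_i)` of the points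
`z_i = γ_i v_i`, with coefficients which are polynomials in `2 π i, w_1, …, w_q, z₀, j'(z₀), j''(z₀)` over a number field
of degree at most `d` (any number field, it may contain the `ξ_i`), is trivial: the polynomial is zero after the
substitution of the constants. There is no bound for the heights of the coefficients, and `c`, `C` do not depend on `w`.

`NearRationalInvariants` contains all tuples of points in short windows, outside a bounded number of points; here there
is no condition on the distances of the points. `AlgebraicInvariants` of the starting library is the analogous theorem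
near the cusp.

Proof. As in `NearRationalInvariants` the numbers are rational functions of constants and of the values at `1 / ξ_i` of
the G-functions of the fundamental matrix of the hypergeometric system of the modular invariant at the point
`x = 1 / j(z₀)`, and all functional relations between them follow from `det = 1`. The theorem of helper916 for almost all
tuples of algebraic integers gives the assertion.

Parts by helper3 (local solution, functional relations), helper7 (independence), helper31 (differential equation),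
helper74 (Galochkin's condition at the cusp), helper84 (G-functions at ordinary points).
-/

set_option autoImplicit false

namespace Pool.Agent.Results.MP_f58a57_nt.AlmostAllNearRationalInvariants

/-- the normalised Eisenstein series of weight `4` -/
noncomputable def E4 (τ : ℂ) : ℂ :=
  1 + 240 * ∑' m : ℕ, ((ArithmeticFunction.sigma 3 (m + 1) : ℕ) : ℂ) *
    Complex.exp (2 * (Real.pi : ℂ) * Complex.I * ((m : ℂ) + 1) * τ)

/-- the normalised Eisenstein series of weight `6` -/
noncomputable def E6 (τ : ℂ) : ℂ :=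
  1 - 504 * ∑' m : ℕ, ((ArithmeticFunction.sigma 5 (m + 1) : ℕ) : ℂ) *
    Complex.exp (2 * (Real.pi : ℂ) * Complex.I * ((m : ℂ) + 1) * τ)

/-- the modular invariant `j = q⁻¹ + 744 + 196884 q + ⋯` -/
noncomputable def J (τ : ℂ) : ℂ := 1728 * E4 τ ^ 3 / (E4 τ ^ 3 - E6 τ ^ 2)

/-- the numbers `z`, `j'(z)`, `j''(z)` -/
noncomputable def numbers (z : ℂ) : Fin 3 → ℂ := ![z, deriv J z, deriv (deriv J) z]

/-- The constants `2 π i, w_1, …, w_q` and `numbers z₀`. -/
noncomputable def constants {q : ℕ} (w : Fin q → ℂ) (z₀ : ℂ) : Option (Fin q) ⊕ Fin 3 → ℂ :=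
  Sum.elim (fun o => o.elim (2 * Real.pi * Complex.I) w) (numbers z₀)

/-- The constants and `numbers (z_1), …, numbers (z_k)`. -/
noncomputable def values {q k : ℕ} (w : Fin q → ℂ) (z₀ : ℂ) (z : Fin k → ℂ) :
    (Option (Fin q) ⊕ Fin 3) ⊕ Fin k × Fin 3 → ℂ := Sum.elim (constants w z₀) fun v => numbers (z v.1) v.2

/-- The constants and `3 k` variables. -/
noncomputable def generic {q k : ℕ} (w : Fin q → ℂ) (z₀ : ℂ) :
    (Option (Fin q) ⊕ Fin 3) ⊕ Fin k × Fin 3 → MvPolynomial (Fin k × Fin 3) ℂ :=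
  Sum.elim (fun o => MvPolynomial.C (constants w z₀ o)) MvPolynomial.X

/-- the algebraic integers of degree at most `m` whose conjugates have absolute value at most `T` -/
def Z (m T : ℕ) : Set ℂ :=
  {ξ | IsIntegral ℤ ξ ∧ (minpoly ℚ ξ).natDegree ≤ m ∧ ∀ z : ℂ, Polynomial.aeval z (minpoly ℚ ξ) = 0 → ‖z‖ ≤ T}

/-- Some `|ξ_i|` is at most `B`, or for some points `v_i` of the upper half-plane with `|v_i - z₀| < ρ` and
`1 / j(v_i) = 1 / j(z₀) + 1 / ξ_i` and some `γ_i` in `SL_2(ℤ)` some polynomial of degree at most `δ` over a number field of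
degree at most `d` vanishes at the constants and the `3 k` numbers of the points `γ_i v_i`, but not after the substitution
of the constants only. -/
def Exceptional (z₀ : ℂ) (ρ : ℝ) (B δ d : ℕ) {q k : ℕ} (w : Fin q → ℂ) (ξ : Fin k → ℂ) : Prop :=
  (∃ i, ‖ξ i‖ ≤ B) ∨ ∃ (v : Fin k → UpperHalfPlane) (γ : Fin k → Matrix.SpecialLinearGroup (Fin 2) ℤ),
    (∀ i, ‖(v i : ℂ) - z₀‖ < ρ ∧ 1 / J (v i) = 1 / J z₀ + 1 / ξ i) ∧
    ∃ K : IntermediateField ℚ ℂ, FiniteDimensional ℚ K ∧ Module.finrank ℚ K ≤ d ∧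
    ∃ P : MvPolynomial ((Option (Fin q) ⊕ Fin 3) ⊕ Fin k × Fin 3) K, P.totalDegree ≤ δ ∧
      MvPolynomial.aeval (values w z₀ fun i => ((γ i • v i : UpperHalfPlane) : ℂ)) P = 0 ∧
      MvPolynomial.aeval (generic (k := k) w z₀) P ≠ 0

lemma J_eq : J = Pool.Agent.TH21.MS.jj := by
  have h4 : E4 = Pool.Agent.TH21.MS.E4 := funext Pool.Agent.Y120.J.E4_same
  have h6 : E6 = Pool.Agent.TH21.MS.E6 := funext Pool.Agent.Y120.J.E6_same
  funext τ
  unfold J Pool.Agent.TH21.MS.jj
  rw [h4, h6]

lemma numbers_eq (z : ℂ) : numbers z = Pool.Agent.Y120.J.jt z := by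
  unfold numbers Pool.Agent.Y120.J.jt
  rw [J_eq]

lemma constants_eq {q : ℕ} (w : Fin q → ℂ) (z₀ : ℂ) :
    constants w z₀ = Sum.elim (Pool.Agent.Y120.K.wo w) (Pool.Agent.Y120.J.jt z₀) := by
  unfold constants
  rw [numbers_eq]
  funext o
  rcases o with (_ | o) | o <;> rfl

lemma values_eq {q k : ℕ} (w : Fin q → ℂ) (z₀ : ℂ) (z : Fin k → ℂ) : values w z₀ z =
    Sum.elim (Sum.elim (Pool.Agent.Y120.K.wo w) (Pool.Agent.Y120.J.jt z₀))
      fun v : Fin k × Fin 3 => Pool.Agent.Y120.J.jt (z v.1) v.2 := by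
  have h1 : (fun v : Fin k × Fin 3 => numbers (z v.1) v.2) =
      fun v : Fin k × Fin 3 => Pool.Agent.Y120.J.jt (z v.1) v.2 := by
    funext v
    rw [numbers_eq]
  unfold values
  rw [constants_eq, h1]

lemma gen_eval {q k : ℕ} (K : IntermediateField ℚ ℂ) (w : Fin q → ℂ) (z₀ : ℂ) (u : Fin k × Fin 3 → ℂ)
    (P : MvPolynomial ((Option (Fin q) ⊕ Fin 3) ⊕ Fin k × Fin 3) K) :
    MvPolynomial.eval u (MvPolynomial.aeval (generic (k := k) w z₀) P) =
      MvPolynomial.aeval (Sum.elim (constants w z₀) u) P := by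
  have h2 : ((MvPolynomial.aeval u : MvPolynomial (Fin k × Fin 3) ℂ →ₐ[ℂ] ℂ).restrictScalars K).comp
      (MvPolynomial.aeval (generic (k := k) w z₀) :
        MvPolynomial ((Option (Fin q) ⊕ Fin 3) ⊕ Fin k × Fin 3) K →ₐ[K] MvPolynomial (Fin k × Fin 3) ℂ)
      = MvPolynomial.aeval (Sum.elim (constants w z₀) u) := by
    apply MvPolynomial.algHom_ext
    intro v
    rw [AlgHom.comp_apply, MvPolynomial.aeval_X, MvPolynomial.aeval_X, AlgHom.restrictScalars_apply]
    rcases v with o | v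
    · rw [generic, Sum.elim_inl, Sum.elim_inl, MvPolynomial.aeval_C]
      rfl
    · rw [generic, Sum.elim_inr, Sum.elim_inr, MvPolynomial.aeval_X]
  rw [← h2, AlgHom.comp_apply, AlgHom.restrictScalars_apply]
  rfl

lemma exc {z₀ : ℂ} {ρ : ℝ} {B δ d q k : ℕ} {w : Fin q → ℂ} {ξ : Fin k → ℂ} (h : Exceptional z₀ ρ B δ d w ξ) :
    (∃ i, ‖ξ i‖ ≤ B) ∨ Pool.Agent.T2h17.MJ.ExcN z₀ ρ δ d w ξ := by
  rcases h with h | ⟨v, γ, hv, K, hK, hKd, P, hP, hP0, hPg⟩
  · exact Or.inl h
  · right
    rw [J_eq] at hv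
    refine ⟨v, γ, hv, K, hK, hKd, P, hP, ?_, ?_⟩
    · rw [values_eq] at hP0
      exact hP0
    · by_contra hcon
      push Not at hcon
      apply hPg
      refine MvPolynomial.funext fun u => ?_
      rw [map_zero, gen_eval, constants_eq]
      exact hcon u

/-- Let `z₀` be a point of the upper half-plane with rational invariant different from `0` and `1728`. There are `ρ > 0`
and `B` such that for `|ξ| > B` there is a point `v` of the upper half-plane with `|v - z₀| < ρ` and
`1 / j(v) = 1 / j(z₀) + 1 / ξ`, and for all `q`, `k`, `m ≥ 1`, `d`, `δ` there are `c > 0` and `C` such that for all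
`w_1, …, w_q` and all `T ≥ 1` at most `C T^(-c) |Z_m(T)|^k` of the `k`-tuples of elements of the finite set `Z_m(T)` are
exceptional. -/
theorem result (z₀ : ℂ) (hz : 0 < z₀.im) (h0 : J z₀ ≠ 0) (h1728 : J z₀ ≠ 1728) (hr : ∃ r : ℚ, J z₀ = r) :
    ∃ (ρ : ℝ) (B : ℕ), 0 < ρ ∧
      (∀ ξ : ℂ, (B : ℝ) < ‖ξ‖ → ∃ v : ℂ, ‖v - z₀‖ < ρ ∧ 0 < v.im ∧ 1 / J v = 1 / J z₀ + 1 / ξ) ∧
      ∀ q k m d δ : ℕ, 1 ≤ m → ∃ c : ℝ, 0 < c ∧ ∃ C : ℝ, 0 ≤ C ∧ ∀ (w : Fin q → ℂ) (T : ℕ), 1 ≤ T →
        (Z m T).Finite ∧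
        ({ξ : Fin k → ℂ | (∀ i, ξ i ∈ Z m T) ∧ Exceptional z₀ ρ B δ d w ξ}.ncard : ℝ) ≤
          C * (T : ℝ) ^ (-c) * ((Z m T).ncard : ℝ) ^ k := by
  obtain ⟨r, hr⟩ := hr
  have h0' := h0
  have h1728' := h1728
  rw [J_eq] at h0' h1728' hr
  have hx : 1 / Pool.Agent.TH21.MS.jj z₀ = ((1 / r : ℚ) : ℂ) := by
    rw [hr]
    push_cast
    rfl
  obtain ⟨ρ, B, hρ, hex, h1⟩ := Pool.Agent.T2h17.MJ.tup Pool.Agent.T2h17.MJ.gal Pool.Agent.T2h17.MJ.t_shift
    Pool.Agent.T2h17.MJ.loc Pool.Agent.T2h17.MJ.vc hz h0' h1728' hx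
  refine ⟨ρ, B, hρ, ?_, fun q k m d δ hm => ?_⟩
  · rw [J_eq]
    exact hex
  obtain ⟨c, hc, C, hC, h⟩ := h1 q k m d δ hm
  refine ⟨c, hc, C, hC, fun w T hT => ?_⟩
  obtain ⟨h1, h2⟩ := h w T hT
  refine ⟨h1, le_trans ?_ h2⟩
  have hsub : {ξ : Fin k → ℂ | (∀ i, ξ i ∈ Z m T) ∧ Exceptional z₀ ρ B δ d w ξ} ⊆
      {ξ : Fin k → ℂ | (∀ i, Pool.Agent.Y916.Sl.SInt m T (ξ i)) ∧
        ((∃ i, ‖ξ i‖ ≤ B) ∨ Pool.Agent.T2h17.MJ.ExcN z₀ ρ δ d w ξ)} := fun α hα => ⟨hα.1, exc hα.2⟩
  have hfin : {ξ : Fin k → ℂ | (∀ i, Pool.Agent.Y916.Sl.SInt m T (ξ i)) ∧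
      ((∃ i, ‖ξ i‖ ≤ B) ∨ Pool.Agent.T2h17.MJ.ExcN z₀ ρ δ d w ξ)}.Finite := by
    refine (Set.Finite.pi' fun _ : Fin k => h1).subset fun α hα => ?_
    exact hα.1
  exact_mod_cast Set.ncard_le_ncard hsub hfin

end Pool.Agent.Results.MP_f58a57_nt.AlmostAllNearRationalInvariants
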