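import Pool.Agent.T2h17.MG.All

/-!
# The modular Schanuel conjecture with derivatives near a point with rational invariant: relations of growing degree

Let `j` be the modular invariant. Let `z₀` be a point of the upper half-plane with `j(z₀)` rational, not `0` or `1728`,
for example one of the special points with rational invariant, and let `z_1, …, z_k` be points near `z₀` (or equivalent
under `SL_2(ℤ)` to such points) with `1 / j(z_i) = 1 / j(z₀) + 1 / n_i` for different large integers `n_i`. If the `z_i` are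
not special and pairwise not equivalent under `GL_2(ℚ)`, the modular Schanuel conjecture with derivatives and special
points predicts that the `3 k` numbers `z_i`, `j'(z_i)`, `j''(z_i)` are algebraically independent, and that they stay
independent if one adds the number `j'(z₀)`, for special `z₀`, or the numbers `z₀`, `j'(z₀)`, `j''(z₀)` for a point `z₀`
which is not special, and the values `j'(w_l)` at further inequivalent special points.

We prove this for the relations whose degree grows with the `n_i`, for all tuples of integers in short windows, up to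
a bounded number of exceptional points. For a sufficiently large `G` and all `q, k` there is `C` such that
for all `δ`, `W` and all integers `t` with `(W + 2)^((δ + 2)^C) ≤ t` the following is true. For `1 ≤ u ≤ W` there is a point `v`
near `z₀` with `1 / j(v) = 1 / j(z₀) + 1 / (t - G u)`. For all complex numbers `w_1, …, w_q` there is a set `S` of at
most `τ + q` numbers such that for ALL different `u_1, …, u_k` in `{1, …, W}` outside `S`, all `v_i` near `z₀` with
`1 / j(v_i) = 1 / j(z₀) + 1 / (t - G u_i)` and all `γ_i` in `SL_2(ℤ)` every relation of degree at most `δ` between the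
numbers `z_i`, `j'(z_i)`, `j''(z_i)` of the points `z_i = γ_i v_i`, with coefficients which are polynomials in
`2 π i, w_1, …, w_q, z₀, j'(z₀), j''(z₀)` over a number field of degree at most `δ`, is trivial. Here `τ` is the
transcendence degree of the field of the numbers `2 π i, z₀, j'(z₀), j''(z₀)`, so `τ ≤ 4`, and `τ = 2` if `z₀` is special
(Chudnovsky). The degree `δ` may grow like a power of `log t / log (W + 2)`, and the number of exceptions does not
depend on it.

The result `GrowingDegreeWindows` of the starting library for this problem is the analogue near the cusp. My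
result `NearRationalInvariants` concerns algebraic `n_i` and relations of bounded degree, with an exponent `E` which
depends on the degree in a non effective way.

Proof. The fundamental matrix of the hypergeometric system of the modular invariant at the rational point `1 / j(z₀)`
consists of G-functions (`NearRationalInvariants`). All functional relations between its entries are consequences of
`det = 1`, so the monomials without one of the two diagonal entries are linearly independent over the rational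
functions, also for several separated shifts, and those of degree `≤ Δ` form a G-system with a constant which is
exponential in `Δ` only. The theorem of the starting library on the values of G-systems (project of helper351), with an
exponent which is polynomial in the number of the functions, and the elimination of the constants by Hilbert
functions with polynomial bounds give the assertion.

Parts by helper18, helper26, helper44, helper68, helper84, helper85.
-/

set_option autoImplicit false

namespace Pool.Agent.Results.MP_f58a57_nt.GrowingDegreeNearRational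

/-- the normalised Eisenstein series of weight `4` -/
noncomputable def E4 (τ : ℂ) : ℂ :=
  1 + 240 * ∑' m : ℕ, ((ArithmeticFunction.sigma 3 (m + 1) : ℕ) : ℂ) *
    Complex.exp (2 * (Real.pi : ℂ) * Complex.I * ((m : ℂ) + 1) * τ)

/-- the normalised Eisenstein series of weight `6` -/
noncomputable def E6 (τ : ℂ) : ℂ :=
  1 - 504 * ∑' m : ℕ, ((ArithmeticFunction.sigma 5 (m + 1) : ℕ) : ℂ) *
    Complex.exp (2 * (Real.pi : ℂ) * Complex.I * ((m : ℂ) + 1) * τ)

/-- the modular invariant `j = q⁻¹ + 744 + 196884 q + ⋯` -/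
noncomputable def J (τ : ℂ) : ℂ := 1728 * E4 τ ^ 3 / (E4 τ ^ 3 - E6 τ ^ 2)

/-- the numbers `z`, `j'(z)`, `j''(z)` -/
noncomputable def numbers (z : ℂ) : Fin 3 → ℂ := ![z, deriv J z, deriv (deriv J) z]

/-- The constants `2 π i, w_1, …, w_q` and `numbers z₀`. -/
noncomputable def constants {q : ℕ} (w : Fin q → ℂ) (z₀ : ℂ) : Option (Fin q) ⊕ Fin 3 → ℂ :=
  Sum.elim (fun o => o.elim (2 * Real.pi * Complex.I) w) (numbers z₀)

/-- The constants and `numbers (z_1), …, numbers (z_k)`. -/
noncomputable def values {q k : ℕ} (w : Fin q → ℂ) (z₀ : ℂ) (z : Fin k → ℂ) :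
    (Option (Fin q) ⊕ Fin 3) ⊕ Fin k × Fin 3 → ℂ := Sum.elim (constants w z₀) fun v => numbers (z v.1) v.2

/-- The constants and `3 k` variables. -/
noncomputable def generic {q k : ℕ} (w : Fin q → ℂ) (z₀ : ℂ) :
    (Option (Fin q) ⊕ Fin 3) ⊕ Fin k × Fin 3 → MvPolynomial (Fin k × Fin 3) ℂ :=
  Sum.elim (fun o => MvPolynomial.C (constants w z₀ o)) MvPolynomial.X

/-- The transcendence degree of the field generated by `2 π i`, `z₀`, `j'(z₀)`, `j''(z₀)` is at most `τ`. -/
def TrdegLe (z₀ : ℂ) (τ : ℕ) : Prop :=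
  Algebra.trdeg ℚ (IntermediateField.adjoin ℚ (insert (2 * Real.pi * Complex.I) (Set.range (numbers z₀)))) ≤ τ

lemma J_eq : J = Pool.Agent.TH21.MS.jj := by
  have h4 : E4 = Pool.Agent.TH21.MS.E4 := funext Pool.Agent.Y120.J.E4_same
  have h6 : E6 = Pool.Agent.TH21.MS.E6 := funext Pool.Agent.Y120.J.E6_same
  funext τ
  unfold J Pool.Agent.TH21.MS.jj
  rw [h4, h6]

lemma numbers_eq (z : ℂ) : numbers z = Pool.Agent.Y120.J.jt z := by
  unfold numbers Pool.Agent.Y120.J.jt
  rw [J_eq]

lemma constants_eq {q : ℕ} (w : Fin q → ℂ) (z₀ : ℂ) :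
    constants w z₀ = Sum.elim (Pool.Agent.Y120.K.wo w) (Pool.Agent.Y120.J.jt z₀) := by
  unfold constants
  rw [numbers_eq]
  funext o
  rcases o with (_ | o) | o <;> rfl

lemma values_eq {q k : ℕ} (w : Fin q → ℂ) (z₀ : ℂ) (z : Fin k → ℂ) : values w z₀ z =
    Sum.elim (Sum.elim (Pool.Agent.Y120.K.wo w) (Pool.Agent.Y120.J.jt z₀))
      fun v : Fin k × Fin 3 => Pool.Agent.Y120.J.jt (z v.1) v.2 := by
  have h1 : (fun v : Fin k × Fin 3 => numbers (z v.1) v.2) =
      fun v : Fin k × Fin 3 => Pool.Agent.Y120.J.jt (z v.1) v.2 := by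
    funext v
    rw [numbers_eq]
  unfold values
  rw [constants_eq, h1]

lemma gen_eval {q k : ℕ} (K : IntermediateField ℚ ℂ) (w : Fin q → ℂ) (z₀ : ℂ) (u : Fin k × Fin 3 → ℂ)
    (P : MvPolynomial ((Option (Fin q) ⊕ Fin 3) ⊕ Fin k × Fin 3) K) :
    MvPolynomial.eval u (MvPolynomial.aeval (generic (k := k) w z₀) P) =
      MvPolynomial.aeval (Sum.elim (constants w z₀) u) P := by
  have h2 : ((MvPolynomial.aeval u : MvPolynomial (Fin k × Fin 3) ℂ →ₐ[ℂ] ℂ).restrictScalars K).comp
      (MvPolynomial.aeval (generic (k := k) w z₀) :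
        MvPolynomial ((Option (Fin q) ⊕ Fin 3) ⊕ Fin k × Fin 3) K →ₐ[K] MvPolynomial (Fin k × Fin 3) ℂ)
      = MvPolynomial.aeval (Sum.elim (constants w z₀) u) := by
    apply MvPolynomial.algHom_ext
    intro v
    rw [AlgHom.comp_apply, MvPolynomial.aeval_X, MvPolynomial.aeval_X, AlgHom.restrictScalars_apply]
    rcases v with o | v
    · rw [generic, Sum.elim_inl, Sum.elim_inl, MvPolynomial.aeval_C]
      rfl
    · rw [generic, Sum.elim_inr, Sum.elim_inr, MvPolynomial.aeval_X]
  rw [← h2, AlgHom.comp_apply, AlgHom.restrictScalars_apply]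
  rfl

/-- Let `z₀` be a point of the upper half-plane with rational invariant different from `0` and `1728` and let `τ` be
at least the transcendence degree of the field of `2 π i, z₀, j'(z₀), j''(z₀)`. There are `ρ > 0` and `G0` such that for
all `G ≥ G0` and `q, k` there is `C` such that for all `δ, W, t` with `(W + 2)^((δ + 2)^C) ≤ t`: for `1 ≤ u ≤ W` there
is a point `v` of the upper half-plane with `|v - z₀| < ρ` and `1 / j(v) = 1 / j(z₀) + 1 / (t - G u)`, and for all
`w_1, …, w_q` there is a set `S` of at most `τ + q` numbers such that for all different `u_1, …, u_k` in `{1, …, W}`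
outside `S`, all `v_i` with `|v_i - z₀| < ρ` and `1 / j(v_i) = 1 / j(z₀) + 1 / (t - G u_i)`, and all `γ_i` in `SL_2(ℤ)`
every polynomial `P` of degree at most `δ` over a number field `K` of degree at most `δ` which vanishes at
`2 π i, w_1, …, w_q`, the numbers of `z₀` and the `3 k` numbers of the points `γ_i v_i` is zero after the substitution
of `2 π i, w_1, …, w_q` and the numbers of `z₀`. -/
theorem result (z₀ : ℂ) (hz : 0 < z₀.im) (h0 : J z₀ ≠ 0) (h1728 : J z₀ ≠ 1728) (hr : ∃ r : ℚ, J z₀ = r) (τ : ℕ)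
    (hτ : TrdegLe z₀ τ) : ∃ (ρ : ℝ) (G0 : ℕ), 0 < ρ ∧ ∀ G : ℕ, G0 ≤ G → ∀ q k : ℕ, ∃ C : ℕ,
      ∀ δ W t : ℕ, (W + 2) ^ ((δ + 2) ^ C) ≤ t →
      (∀ u : ℕ, 1 ≤ u → u ≤ W →
        ∃ v : ℂ, ‖v - z₀‖ < ρ ∧ 0 < v.im ∧ 1 / J v = 1 / J z₀ + 1 / ((t : ℂ) - ((G * u : ℕ) : ℂ))) ∧
      ∀ w : Fin q → ℂ, ∃ S : Finset ℕ, S.card ≤ τ + q ∧
      ∀ u : Fin k → ℕ, Function.Injective u → (∀ i, 1 ≤ u i ∧ u i ≤ W ∧ u i ∉ S) →
      ∀ (v : Fin k → UpperHalfPlane) (γ : Fin k → Matrix.SpecialLinearGroup (Fin 2) ℤ),
      (∀ i, ‖(v i : ℂ) - z₀‖ < ρ ∧ 1 / J (v i) = 1 / J z₀ + 1 / ((t : ℂ) - ((G * u i : ℕ) : ℂ))) →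
      ∀ K : IntermediateField ℚ ℂ, FiniteDimensional ℚ K → Module.finrank ℚ K ≤ δ →
      ∀ P : MvPolynomial ((Option (Fin q) ⊕ Fin 3) ⊕ Fin k × Fin 3) K, P.totalDegree ≤ δ →
        MvPolynomial.aeval (values w z₀ fun i => ((γ i • v i : UpperHalfPlane) : ℂ)) P = 0 →
        MvPolynomial.aeval (generic (k := k) w z₀) P = 0 := by
  obtain ⟨r, hr⟩ := hr
  rw [J_eq] at h0 h1728 hr
  have hx : 1 / Pool.Agent.TH21.MS.jj z₀ = ((1 / r : ℚ) : ℂ) := by
    rw [hr]
    push_cast
    rfl
  have hτ' : Algebra.trdeg ℚ (IntermediateField.adjoin ℚ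
      (insert Pool.Agent.Y120.J.tpi (Set.range (Pool.Agent.Y120.J.jt z₀)))) ≤ τ := by
    rw [← numbers_eq]
    exact hτ
  obtain ⟨ρ, G0, hρ, h1⟩ := Pool.Agent.T2h17.MG.win Pool.Agent.T2h17.MG.t_red
    Pool.Agent.T2h17.MG.t_det Pool.Agent.T2h17.MG.t_nli Pool.Agent.T2h17.MG.Lis.t_lis Pool.Agent.T2h17.MG.t_mon
    Pool.Agent.T2h17.MG.t_nrjB Pool.Agent.T2h17.MG.t_wf Pool.Agent.T2h17.MJ.gal Pool.Agent.T2h17.MJ.t_shift
    Pool.Agent.T2h17.MJ.loc Pool.Agent.T2h17.MJ.vc hz h0 h1728 hx hτ'
  refine ⟨ρ, G0, hρ, fun G hG q k => ?_⟩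
  obtain ⟨E, ⟨C, hC⟩, hE⟩ := h1 G hG q k
  refine ⟨C, fun δ W t ht => ?_⟩
  rw [J_eq, hx]
  obtain ⟨h2, h3⟩ := hE δ W t ((Nat.pow_le_pow_right (by omega) (hC δ)).trans ht)
  refine ⟨h2, fun w => ?_⟩
  obtain ⟨S, hS, h4⟩ := h3 w
  refine ⟨S, hS, fun u hu hub v γ hv K hK hKD P hP hP0 => ?_⟩
  rw [values_eq] at hP0
  have h5 := h4 u hu hub v γ hv K hK hKD P hP hP0
  apply MvPolynomial.funext
  intro y
  rw [map_zero, gen_eval, constants_eq]
  exact h5 y

end Pool.Agent.Results.MP_f58a57_nt.GrowingDegreeNearRational
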