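import Pool.Agent.N318.TG.A
import Pool.Agent.Results.MP_f58a57_nt.AlmostAllNearRationalInvariants

/-!
# Points near a point with rational invariant and the values of multiplicative functions

Let `F_1, …, F_k` be positive multiplicative functions of at most polynomial growth with `F_i(p) ≤ M p` for the large primes
`p`, with different values at different large primes; for example Euler's function or the sum of the divisors. Let `z₀` be
a point of the upper half-plane with `j(z₀)` rational, not `0` or `1728`, for example one of the special points with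
rational invariant. There are `ρ > 0` and `B` such that for all `ξ` with `|ξ| > B` there is a point `v` with `|v - z₀| < ρ`
and `1 / j(v) = 1 / j(z₀) + 1 / ξ`. For all `q`, `k`, `d`, `δ` there is `η > 0` such that for all such `F_i` and all `U`,
for all large `N` and all complex numbers `w_1, …, w_q` the following holds for all but `N ^ k / (log N) ^ U` of the
`k`-tuples `m` of positive integers `≤ N`. All `F_i(m_i)` are at least `2`, and for ALL integers `a_i ≠ 0` and `b_i` which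
are bounded in absolute value by `F_l(m_l) ^ η` for some `l`, the following holds for the integers
`n_i = a_i F_i(m_i) + b_i`: all `|n_i|` are greater than `B`, and for all points `v_i` with `|v_i - z₀| < ρ` and
`1 / j(v_i) = 1 / j(z₀) + 1 / n_i` and all `γ_i` in `SL_2(ℤ)` every relation of degree at most `δ` between the numbers
`z_i`, `j'(z_i)`, `j''(z_i)` of the points `z_i = γ_i v_i` with coefficients which are polynomials in `2 π i, w_1, …, w_q`,
`z₀`, `j'(z₀)`, `j''(z₀)` over a number field of degree at most `d` is trivial. If the `z_i` are not special and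
inequivalent, this is the bound of the modular Schanuel conjecture with derivatives for relations of degree `≤ δ`, with
the special points `z₀` and `τ_l`, where `w_l = j'(τ_l)`.

The values of the functions `F_i` have very large multiplicities and are a thin set, and so this does not follow from
the number of exceptional tuples of integers in `AlmostAllNearRationalInvariants` alone. The result
`MultiplicativeValues` of the starting library is the analogue near the cusp, for `j(z_i) = n_i`.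

The theorem on multiplicative functions (`Pool.Agent.N318.TG.keep_near`) is in the starting library.
-/

set_option autoImplicit false

namespace Pool.Agent.Results.MP_f58a57_nt.MultiplicativeNearRational

open Pool.Agent.N733.TG (LM lm_totient lm_sigma)
open Pool.Agent.Results.MP_f58a57_nt.AlmostAllNearRationalInvariants (Exceptional Z J)

lemma int_mem_Z {n : ℤ} {T : ℕ} (h : |n| ≤ (T : ℤ)) : (n : ℂ) ∈ Z 1 T := by
  have h1 : minpoly ℚ (n : ℂ) = Polynomial.X - Polynomial.C (n : ℚ) := by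
    have := minpoly.eq_X_sub_C (A := ℚ) ℂ (n : ℚ)
    rw [← this]
    simp
  refine ⟨?_, ?_, fun z hz => ?_⟩
  · have := isIntegral_algebraMap (R := ℤ) (A := ℂ) (x := n)
    simpa using this
  · rw [h1, Polynomial.natDegree_X_sub_C]
  · rw [h1] at hz
    have h2 : z = (n : ℂ) := by
      simpa [sub_eq_zero] using hz
    rw [h2, Complex.norm_intCast]
    exact_mod_cast h

lemma mem_Z_int {ξ : ℂ} {T : ℕ} (h : ξ ∈ Z 1 T) : ∃ n : ℤ, |n| ≤ (T : ℤ) ∧ (n : ℂ) = ξ := by
  obtain ⟨h1, h2, h3⟩ := h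
  have hq : IsIntegral ℚ ξ := h1.tower_top
  have h4 : (minpoly ℚ ξ).natDegree = 1 := le_antisymm h2 (minpoly.natDegree_pos hq)
  obtain ⟨r, hr⟩ := minpoly.natDegree_eq_one_iff.1 h4
  have h5 : IsIntegral ℤ r := by
    rw [← hr] at h1
    exact (isIntegral_algebraMap_iff (algebraMap ℚ ℂ).injective).1 h1
  obtain ⟨n, hn⟩ := IsIntegrallyClosed.isIntegral_iff.1 h5
  have h6 : (n : ℂ) = ξ := by
    rw [← hr, ← hn]
    simp
  refine ⟨n, ?_, h6⟩
  have h7 := h3 ξ (minpoly.aeval ℚ ξ)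
  rw [← h6, Complex.norm_intCast] at h7
  exact_mod_cast h7

lemma Z_one_card (T : ℕ) : (Z 1 T).ncard ≤ 2 * T + 1 := by
  have hsub : Z 1 T ⊆ ((fun n : ℤ => (n : ℂ)) '' (Finset.Icc (-(T : ℤ)) T : Finset ℤ)) := by
    intro ξ hξ
    obtain ⟨n, hn, h⟩ := mem_Z_int hξ
    exact ⟨n, by rw [Finset.mem_coe, Finset.mem_Icc]; exact abs_le.1 hn, h⟩
  have h1 := Set.ncard_le_ncard hsub ((Finset.finite_toSet _).image _)
  refine h1.trans ((Set.ncard_image_le (Finset.finite_toSet _)).trans ?_)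
  rw [Set.ncard_coe_finset, Int.card_Icc]
  omega

/-- **Theorem.** Let `z₀` be a point of the upper half-plane with rational invariant different from `0` and `1728`. There
are `ρ > 0` and `B` such that for `|ξ| > B` there is a point `v` of the upper half-plane with `|v - z₀| < ρ` and
`1 / j(v) = 1 / j(z₀) + 1 / ξ`, and for all `q`, `k ≥ 1`, `d`, `δ` there is `η > 0` such that for all `F_1, …, F_k` which are LM
and all `U` there is `N₀` such that for all `N ≥ N₀` and all `w_1, …, w_q`: for all but at most `N ^ k / (log N) ^ U` of the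
tuples `m` of positive integers `≤ N`, all `F_i(m_i)` are at least `2` and for all integers `a_i ≠ 0`, `b_i` with
`|a_i|, |b_i| ≤ F_l(m_l) ^ η` (for some `l` which does not depend on `i`) the tuple `(a_i F_i(m_i) + b_i)` is not exceptional.
Euler's function and the sum of the divisors are LM. -/
theorem result (z₀ : ℂ) (hz : 0 < z₀.im) (h0 : J z₀ ≠ 0) (h1728 : J z₀ ≠ 1728) (hr : ∃ r : ℚ, J z₀ = r) :
    (∃ (ρ : ℝ) (B : ℕ), 0 < ρ ∧
      (∀ ξ : ℂ, (B : ℝ) < ‖ξ‖ → ∃ v : ℂ, ‖v - z₀‖ < ρ ∧ 0 < v.im ∧ 1 / J v = 1 / J z₀ + 1 / ξ) ∧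
      ∀ q k d δ : ℕ, 1 ≤ k → ∃ η : ℝ, 0 < η ∧ ∀ F : Fin k → ℕ → ℕ, (∀ i, LM (F i)) → ∀ U : ℕ, ∃ N₀ : ℕ,
        ∀ N : ℕ, N₀ ≤ N → ∀ w : Fin q → ℂ,
        ({m : Fin k → ℕ | (∀ i, 1 ≤ m i ∧ m i ≤ N) ∧ ¬ ((∀ i, 2 ≤ F i (m i)) ∧
          ∀ a b : Fin k → ℤ, (∃ l, ∀ i, a i ≠ 0 ∧ |(a i : ℝ)| ≤ (F l (m l) : ℝ) ^ η ∧ |(b i : ℝ)| ≤ (F l (m l) : ℝ) ^ η) →
          ¬ Exceptional z₀ ρ B δ d w (fun i => (a i : ℂ) * (F i (m i) : ℂ) + (b i : ℂ)))}.ncard : ℝ) ≤
          (N : ℝ) ^ k / Real.log N ^ U) ∧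
    LM Nat.totient ∧ LM (fun m => ∑ d ∈ m.divisors, d) := by
  refine ⟨?_, lm_totient, lm_sigma⟩
  obtain ⟨ρ, B, hρ, hex, hres⟩ := AlmostAllNearRationalInvariants.result z₀ hz h0 h1728 hr
  refine ⟨ρ, B, hρ, hex, fun q k d δ hk => ?_⟩
  obtain ⟨c, hc, C, hC, h⟩ := hres q k 1 d δ le_rfl
  obtain ⟨η, hη, hkeep⟩ := Pool.Agent.N318.TG.keep_near hk hc
  refine ⟨η, hη, fun F hF U => ?_⟩
  obtain ⟨N₀, hN₀⟩ := hkeep F hF (C * 3 ^ k) U
  refine ⟨N₀, fun N hN w => ?_⟩
  have h1 := hN₀ N hN {α : Fin k → ℤ | Exceptional z₀ ρ B δ d w (fun i => ((α i : ℤ) : ℂ))} (fun T hT => ?_)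
  · refine le_trans (le_of_eq ?_) h1
    congr 2
    ext m
    simp only [Set.mem_ofPred_eq, Int.cast_add, Int.cast_mul, Int.cast_natCast]
  · obtain ⟨hfin, h2⟩ := h w T hT
    have hT1 : (1 : ℝ) ≤ T := by exact_mod_cast hT
    have hT0 : (0 : ℝ) < T := by linarith
    have hfin2 : {α : Fin k → ℂ | (∀ i, α i ∈ Z 1 T) ∧ Exceptional z₀ ρ B δ d w α}.Finite :=
      (Set.Finite.pi' fun _ : Fin k => hfin).subset fun α hα => hα.1
    have h3 : {α : Fin k → ℤ | (∀ i, |α i| ≤ (T : ℤ)) ∧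
        α ∈ {α : Fin k → ℤ | Exceptional z₀ ρ B δ d w (fun i => ((α i : ℤ) : ℂ))}}.ncard ≤
        {α : Fin k → ℂ | (∀ i, α i ∈ Z 1 T) ∧ Exceptional z₀ ρ B δ d w α}.ncard := by
      refine Set.ncard_le_ncard_of_injOn (fun α i => ((α i : ℤ) : ℂ)) ?_ ?_ hfin2
      · rintro α ⟨h4, h5⟩
        exact ⟨fun i => int_mem_Z (h4 i), h5⟩
      · intro α _ β _ hαβ
        funext i
        have h6 : ((α i : ℤ) : ℂ) = ((β i : ℤ) : ℂ) := congrFun hαβ i
        exact_mod_cast h6
    have h4 : ((Z 1 T).ncard : ℝ) ≤ 3 * T := by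
      have h5 : (((Z 1 T).ncard : ℕ) : ℝ) ≤ ((2 * T + 1 : ℕ) : ℝ) := by exact_mod_cast Z_one_card T
      push_cast at h5
      linarith
    calc (({α : Fin k → ℤ | (∀ i, |α i| ≤ (T : ℤ)) ∧
        α ∈ {α : Fin k → ℤ | Exceptional z₀ ρ B δ d w (fun i => ((α i : ℤ) : ℂ))}}.ncard : ℕ) : ℝ)
        ≤ (({α : Fin k → ℂ | (∀ i, α i ∈ Z 1 T) ∧ Exceptional z₀ ρ B δ d w α}.ncard : ℕ) : ℝ) := by exact_mod_cast h3
      _ ≤ C * (T : ℝ) ^ (-c) * ((Z 1 T).ncard : ℝ) ^ k := h2
      _ ≤ C * (T : ℝ) ^ (-c) * (3 * T) ^ k :=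
          mul_le_mul_of_nonneg_left (pow_le_pow_left₀ (Nat.cast_nonneg _) h4 k) (by positivity)
      _ = C * 3 ^ k * (T : ℝ) ^ ((k : ℝ) - c) := by
          rw [mul_pow, sub_eq_neg_add, Real.rpow_add hT0, Real.rpow_natCast]
          ring

end Pool.Agent.Results.MP_f58a57_nt.MultiplicativeNearRational
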