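import Pool.Agent.T2h17.MJ.All

/-!
# The modular Schanuel conjecture with derivatives: points near a point with rational invariant

Let `j` be the modular invariant. Let `z₀` be a point of the upper half-plane with `j(z₀)` rational, not `0` or `1728`,
for example one of the special points with rational invariant, and let `z_1, …, z_k` be points near `z₀` (or equivalent
under `SL_2(ℤ)` to such points) with different algebraic invariants. If the `z_i` are not special and pairwise not
equivalent under `GL_2(ℚ)`, the modular Schanuel conjecture with derivatives and special points predicts that the `3 k`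
numbers `z_i`, `j'(z_i)`, `j''(z_i)` are algebraically independent, and that they stay independent if one adds the number
`j'(z₀)`, for special `z₀`, or the numbers `z₀`, `j'(z₀)`, `j''(z₀)` for a point `z₀` which is not special, and the
values `j'(w_l)` at further inequivalent special points.

We prove this for all relations of bounded degree, for all tuples of points in short windows, up to a bounded number of
exceptional points. For a sufficiently large `G` and all `q, k, D, δ, g, A` there is `E` such that for all `W` and all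
algebraic `ξ` of degree `≤ g` and height `≤ |ξ|^A` with `(W + 2)^E ≤ |ξ|` the following is true. For
`1 ≤ u ≤ W` there is a point `v` near `z₀` with `1 / j(v) = 1 / j(z₀) + 1 / (ξ - G u)`. For all
complex numbers `w_1, …, w_q` there is a set `S` of at most `τ + q` numbers such that for ALL different `u_1, …, u_k` in
`{1, …, W}` outside `S`, all `v_i` near `z₀` with `1 / j(v_i) = 1 / j(z₀) + 1 / (ξ - G u_i)` and all `γ_i` in `SL_2(ℤ)`
every relation of degree at most `δ` between the numbers `z_i`, `j'(z_i)`, `j''(z_i)` of the points `z_i = γ_i v_i`, with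
coefficients which are polynomials in `2 π i, w_1, …, w_q, z₀, j'(z₀), j''(z₀)` over a number field of degree at most `D`, is
trivial. Here `τ` is the transcendence degree of the field of the numbers `2 π i, z₀, j'(z₀), j''(z₀)`, so `τ ≤ 4`,
and `τ = 2` if `z₀` is special (Chudnovsky); the size of `S` does not depend on `w`, `γ`, `ξ`.

The results of the starting library for this problem (`DistinctWindows`, `GrowingDegreeWindows`, `AlgebraicInvariants`)
concern points with large invariants, near the cusp, where the functions have logarithms. Here the points are near an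
interior point of the upper half-plane, in particular near a special point.

Proof. The pair `(F, θ F)`, where `F² = - j' / (2 π i j)` and `θ = - (j / j') d/dz`, and `2 π i z F` satisfy the
hypergeometric system of the modular invariant in the variable `x = 1 / j`, which satisfies Galochkin's condition. At
a rational point `x₀` its fundamental matrix consists of G-functions. The matrix of `F`, `2 π i z F` is this
fundamental matrix times the constant matrix of the values at `z₀`. All functional relations between the entries of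
the fundamental matrix are consequences of `det = 1`, because `j, z, j', j''` are algebraically independent functions. The
theorem of helper916 on the values of G-functions at algebraic points of windows, with unknown constants, gives the
assertion.

Parts by helper3 (local solution, functional relations), helper7 (independence), helper31 (differential equation),
helper74 (Galochkin's condition at the cusp), helper84 (G-functions at ordinary points).
-/

set_option autoImplicit false

namespace Pool.Agent.Results.MP_f58a57_nt.NearRationalInvariants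

/-- the normalised Eisenstein series of weight `4` -/
noncomputable def E4 (τ : ℂ) : ℂ :=
  1 + 240 * ∑' m : ℕ, ((ArithmeticFunction.sigma 3 (m + 1) : ℕ) : ℂ) *
    Complex.exp (2 * (Real.pi : ℂ) * Complex.I * ((m : ℂ) + 1) * τ)

/-- the normalised Eisenstein series of weight `6` -/
noncomputable def E6 (τ : ℂ) : ℂ :=
  1 - 504 * ∑' m : ℕ, ((ArithmeticFunction.sigma 5 (m + 1) : ℕ) : ℂ) *
    Complex.exp (2 * (Real.pi : ℂ) * Complex.I * ((m : ℂ) + 1) * τ)

/-- the modular invariant `j = q⁻¹ + 744 + 196884 q + ⋯` -/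
noncomputable def J (τ : ℂ) : ℂ := 1728 * E4 τ ^ 3 / (E4 τ ^ 3 - E6 τ ^ 2)

/-- the numbers `z`, `j'(z)`, `j''(z)` -/
noncomputable def numbers (z : ℂ) : Fin 3 → ℂ := ![z, deriv J z, deriv (deriv J) z]

/-- The constants `2 π i, w_1, …, w_q` and `numbers z₀`. -/
noncomputable def constants {q : ℕ} (w : Fin q → ℂ) (z₀ : ℂ) : Option (Fin q) ⊕ Fin 3 → ℂ :=
  Sum.elim (fun o => o.elim (2 * Real.pi * Complex.I) w) (numbers z₀)

/-- The constants and `numbers (z_1), …, numbers (z_k)`. -/
noncomputable def values {q k : ℕ} (w : Fin q → ℂ) (z₀ : ℂ) (z : Fin k → ℂ) :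
    (Option (Fin q) ⊕ Fin 3) ⊕ Fin k × Fin 3 → ℂ := Sum.elim (constants w z₀) fun v => numbers (z v.1) v.2

/-- The constants and `3 k` variables. -/
noncomputable def generic {q k : ℕ} (w : Fin q → ℂ) (z₀ : ℂ) :
    (Option (Fin q) ⊕ Fin 3) ⊕ Fin k × Fin 3 → MvPolynomial (Fin k × Fin 3) ℂ :=
  Sum.elim (fun o => MvPolynomial.C (constants w z₀ o)) MvPolynomial.X

/-- The transcendence degree of the field generated by `2 π i`, `z₀`, `j'(z₀)`, `j''(z₀)` is at most `τ`. -/
def TrdegLe (z₀ : ℂ) (τ : ℕ) : Prop :=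
  Algebra.trdeg ℚ (IntermediateField.adjoin ℚ (insert (2 * Real.pi * Complex.I) (Set.range (numbers z₀)))) ≤ τ

/-- `ξ` is a root of a nonzero integral polynomial of degree at most `g` with coefficients of size at
most `|ξ|^A` -/
def Height (g A : ℕ) (ξ : ℂ) : Prop :=
  ∃ p : Polynomial ℤ, p ≠ 0 ∧ p.natDegree ≤ g ∧ (∀ j, |(p.coeff j : ℝ)| ≤ ‖ξ‖ ^ A) ∧
    Polynomial.aeval ξ p = 0

lemma J_eq : J = Pool.Agent.TH21.MS.jj := by
  have h4 : E4 = Pool.Agent.TH21.MS.E4 := funext Pool.Agent.Y120.J.E4_same
  have h6 : E6 = Pool.Agent.TH21.MS.E6 := funext Pool.Agent.Y120.J.E6_same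
  funext τ
  unfold J Pool.Agent.TH21.MS.jj
  rw [h4, h6]

lemma numbers_eq (z : ℂ) : numbers z = Pool.Agent.Y120.J.jt z := by
  unfold numbers Pool.Agent.Y120.J.jt
  rw [J_eq]

lemma constants_eq {q : ℕ} (w : Fin q → ℂ) (z₀ : ℂ) :
    constants w z₀ = Sum.elim (Pool.Agent.Y120.K.wo w) (Pool.Agent.Y120.J.jt z₀) := by
  unfold constants
  rw [numbers_eq]
  funext o
  rcases o with (_ | o) | o <;> rfl

lemma values_eq {q k : ℕ} (w : Fin q → ℂ) (z₀ : ℂ) (z : Fin k → ℂ) : values w z₀ z =
    Sum.elim (Sum.elim (Pool.Agent.Y120.K.wo w) (Pool.Agent.Y120.J.jt z₀))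
      fun v : Fin k × Fin 3 => Pool.Agent.Y120.J.jt (z v.1) v.2 := by
  have h1 : (fun v : Fin k × Fin 3 => numbers (z v.1) v.2) =
      fun v : Fin k × Fin 3 => Pool.Agent.Y120.J.jt (z v.1) v.2 := by
    funext v
    rw [numbers_eq]
  unfold values
  rw [constants_eq, h1]

lemma gen_eval {q k : ℕ} (K : IntermediateField ℚ ℂ) (w : Fin q → ℂ) (z₀ : ℂ) (u : Fin k × Fin 3 → ℂ)
    (P : MvPolynomial ((Option (Fin q) ⊕ Fin 3) ⊕ Fin k × Fin 3) K) :
    MvPolynomial.eval u (MvPolynomial.aeval (generic (k := k) w z₀) P) =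
      MvPolynomial.aeval (Sum.elim (constants w z₀) u) P := by
  have h2 : ((MvPolynomial.aeval u : MvPolynomial (Fin k × Fin 3) ℂ →ₐ[ℂ] ℂ).restrictScalars K).comp
      (MvPolynomial.aeval (generic (k := k) w z₀) :
        MvPolynomial ((Option (Fin q) ⊕ Fin 3) ⊕ Fin k × Fin 3) K →ₐ[K] MvPolynomial (Fin k × Fin 3) ℂ)
      = MvPolynomial.aeval (Sum.elim (constants w z₀) u) := by
    apply MvPolynomial.algHom_ext
    intro v
    rw [AlgHom.comp_apply, MvPolynomial.aeval_X, MvPolynomial.aeval_X, AlgHom.restrictScalars_apply]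
    rcases v with o | v
    · rw [generic, Sum.elim_inl, Sum.elim_inl, MvPolynomial.aeval_C]
      rfl
    · rw [generic, Sum.elim_inr, Sum.elim_inr, MvPolynomial.aeval_X]
  rw [← h2, AlgHom.comp_apply, AlgHom.restrictScalars_apply]
  rfl

/-- Let `z₀` be a point of the upper half-plane with rational invariant different from `0` and `1728` and let `τ` be
at least the transcendence degree of the field of `2 π i, z₀, j'(z₀), j''(z₀)`. There are `ρ > 0` and `G0` such that for
all `G ≥ G0` and `q, k, D, δ, g, A` there is `E` such that for all `W` and all `ξ` of degree `≤ g` and height `≤ |ξ|^A`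
with `(W + 2)^E ≤ |ξ|`: for `1 ≤ u ≤ W` there is a point `v` of the upper half-plane with `|v - z₀| < ρ` and
`1 / j(v) = 1 / j(z₀) + 1 / (ξ - G u)`, and for all `w_1, …, w_q` there is a set `S` of at most `τ + q` numbers such that for
all different `u_1, …, u_k` in `{1, …, W}` outside `S`, all `v_i` with `|v_i - z₀| < ρ` and
`1 / j(v_i) = 1 / j(z₀) + 1 / (ξ - G u_i)`, and all `γ_i` in `SL_2(ℤ)` every polynomial `P` of degree at most `δ` over a
number field `K` of degree at most `D` which vanishes at `2 π i, w_1, …, w_q`, the numbers of `z₀` and the `3 k` numbers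
of the points `γ_i v_i` is zero after the substitution of `2 π i, w_1, …, w_q` and the numbers of `z₀`. -/
theorem result (z₀ : ℂ) (hz : 0 < z₀.im) (h0 : J z₀ ≠ 0) (h1728 : J z₀ ≠ 1728) (hr : ∃ r : ℚ, J z₀ = r) (τ : ℕ)
    (hτ : TrdegLe z₀ τ) : ∃ (ρ : ℝ) (G0 : ℕ), 0 < ρ ∧ ∀ G : ℕ, G0 ≤ G → ∀ q k D δ g A : ℕ, ∃ E : ℕ,
      ∀ (W : ℕ) (ξ : ℂ), ((W : ℝ) + 2) ^ E ≤ ‖ξ‖ → Height g A ξ →
      (∀ u : ℕ, 1 ≤ u → u ≤ W →
        ∃ v : ℂ, ‖v - z₀‖ < ρ ∧ 0 < v.im ∧ 1 / J v = 1 / J z₀ + 1 / (ξ - ((G * u : ℕ) : ℂ))) ∧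
      ∀ w : Fin q → ℂ, ∃ S : Finset ℕ, S.card ≤ τ + q ∧
      ∀ u : Fin k → ℕ, Function.Injective u → (∀ i, 1 ≤ u i ∧ u i ≤ W ∧ u i ∉ S) →
      ∀ (v : Fin k → UpperHalfPlane) (γ : Fin k → Matrix.SpecialLinearGroup (Fin 2) ℤ),
      (∀ i, ‖(v i : ℂ) - z₀‖ < ρ ∧ 1 / J (v i) = 1 / J z₀ + 1 / (ξ - ((G * u i : ℕ) : ℂ))) →
      ∀ K : IntermediateField ℚ ℂ, FiniteDimensional ℚ K → Module.finrank ℚ K ≤ D →
      ∀ P : MvPolynomial ((Option (Fin q) ⊕ Fin 3) ⊕ Fin k × Fin 3) K, P.totalDegree ≤ δ →
        MvPolynomial.aeval (values w z₀ fun i => ((γ i • v i : UpperHalfPlane) : ℂ)) P = 0 →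
        MvPolynomial.aeval (generic (k := k) w z₀) P = 0 := by
  obtain ⟨r, hr⟩ := hr
  rw [J_eq] at h0 h1728 hr
  have hx : 1 / Pool.Agent.TH21.MS.jj z₀ = ((1 / r : ℚ) : ℂ) := by
    rw [hr]
    push_cast
    rfl
  have hτ' : Algebra.trdeg ℚ (IntermediateField.adjoin ℚ
      (insert Pool.Agent.Y120.J.tpi (Set.range (Pool.Agent.Y120.J.jt z₀)))) ≤ τ := by
    rw [← numbers_eq]
    exact hτ
  obtain ⟨ρ, G0, hρ, h1⟩ := Pool.Agent.T2h17.MJ.win Pool.Agent.T2h17.MJ.gal Pool.Agent.T2h17.MJ.t_shift
    Pool.Agent.T2h17.MJ.loc Pool.Agent.T2h17.MJ.vc hz h0 h1728 hx hτ'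
  refine ⟨ρ, G0, hρ, fun G hG q k D δ g A => ?_⟩
  obtain ⟨E, hE⟩ := h1 G hG q k g D δ A
  refine ⟨E, fun W ξ hξ hht => ?_⟩
  rw [J_eq, hx]
  obtain ⟨h2, h3⟩ := hE W ξ hξ hht
  refine ⟨h2, fun w => ?_⟩
  obtain ⟨S, hS, h4⟩ := h3 w
  refine ⟨S, hS, fun u hu hub v γ hv K hK hKD P hP hP0 => ?_⟩
  rw [values_eq] at hP0
  have h5 := h4 u hu hub v γ hv K hK hKD P hP hP0
  apply MvPolynomial.funext
  intro y
  rw [map_zero, gen_eval, constants_eq]
  exact h5 y

end Pool.Agent.Results.MP_f58a57_nt.NearRationalInvariants
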